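import Pool.Agent.W398.SG.Stm

namespace Pool.Agent.W692.SG.TF

open Pool.Agent.W37.SG Pool.Agent.W398.SG
open scoped Matrix

theorem zero_of_dvd {p : ℕ} [Fact p.Prime] (x : ℤ_[p]) (h : ∀ k : ℕ, (p : ℤ_[p]) ^ k ∣ x) :
    x = 0 := by
  rw [← PadicInt.ext_of_toZModPow]
  intro n
  obtain ⟨y, rfl⟩ := h n
  rw [map_mul, map_pow, map_natCast, map_zero]
  have : ((p : ZMod (p ^ n)) ^ n) = 0 := by
    have := ZMod.natCast_self (p ^ n)
    push_cast at this
    exact this
  rw [this, zero_mul]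

/-- The sum of the powers of `1 + p M`. -/
theorem geom {p : ℕ} (hp : Odd p) {A : Type*} [Ring A] (M : A) :
    ∃ Y : A, ∑ i ∈ Finset.range p, (1 + (p : A) * M) ^ i = p + (p : A) ^ 2 * Y := by
  have h := odd_sq_dvd_geom_sum₂_sub (R := Polynomial ℤ) (a := 1) (b := Polynomial.X) (p := p) hp
  obtain ⟨Q, hQ⟩ := h
  refine ⟨Polynomial.aeval M Q, ?_⟩
  have := congrArg (Polynomial.aeval M) hQ
  simp only [map_sub, map_sum, map_mul, map_pow, map_add, map_one, map_natCast,
    Polynomial.aeval_X, one_pow, mul_one] at this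
  rw [← this]
  abel

theorem core {p : ℕ} [Fact p.Prime] (hp : p ≠ 2) {d : ℕ} (M : Mat p d)
    (h : (1 + (p : Mat p d) * M) ^ p = 1) : M = 0 := by
  have hodd : Odd p := (Fact.out : p.Prime).odd_of_ne_two hp
  obtain ⟨Y, hY⟩ := geom hodd M
  have h1 := geom_sum_mul (1 + (p : Mat p d) * M) p
  rw [h, sub_self, hY, add_sub_cancel_left] at h1
  have h2 : ((p : ℤ_[p]) ^ 2) • (M + (p : ℤ_[p]) • (Y * M)) = 0 := by
    rw [← h1]
    have e : ((p : ℕ) : Mat p d) = (p : ℤ_[p]) • (1 : Mat p d) := by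
      rw [Matrix.smul_one_eq_diagonal]
      rfl
    rw [e]
    simp only [smul_mul_assoc, one_mul, add_mul, mul_smul_comm, smul_add, smul_smul, mul_one,
      smul_pow, one_pow]
    ring_nf
  have h3 : M + (p : ℤ_[p]) • (Y * M) = 0 := by
    have hp0 : ((p : ℤ_[p]) ^ 2) ≠ 0 := pow_ne_zero _ (by exact_mod_cast (Fact.out : p.Prime).ne_zero)
    exact (smul_eq_zero.1 h2).resolve_left hp0
  have h4 : ∀ k : ℕ, M = ((-(p : ℤ_[p])) ^ k) • (Y ^ k * M) := by
    intro k
    induction k with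
    | zero => simp
    | succ k ih =>
      have h5 : M = (-(p : ℤ_[p])) • (Y * M) := by
        rw [neg_smul]; exact eq_neg_of_add_eq_zero_left h3
      calc M = ((-(p : ℤ_[p])) ^ k) • (Y ^ k * M) := ih
        _ = ((-(p : ℤ_[p])) ^ k) • (Y ^ k * ((-(p : ℤ_[p])) • (Y * M))) := by rw [← h5]
        _ = ((-(p : ℤ_[p])) ^ (k + 1)) • (Y ^ (k + 1) * M) := by
          rw [mul_smul_comm, smul_smul, ← pow_succ, ← mul_assoc, ← pow_succ]
  ext i j
  apply zero_of_dvd
  intro k
  have := congrFun (congrFun (h4 k) i) j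
  rw [this, Matrix.smul_apply, smul_eq_mul, neg_pow]
  exact Dvd.dvd.mul_right (Dvd.intro_left _ rfl) _

theorem main : S_TF := by
  intro p hpf hp d G _ _ hG ρ hρ
  obtain ⟨a, ha⟩ := IsPGroup.iff_card.1 hG
  refine ⟨a, ?_, ha⟩
  let φ : G →* Matrix (Fin d) (Fin d) (ZMod (p ^ 1)) :=
    ((PadicInt.toZModPow (p := p) 1).mapMatrix : Mat p d →+* _).toMonoidHom.comp ρ
  have key : ∀ g : G, φ g = 1 → g ^ p = 1 → g = 1 := by
    intro g hg hgp
    have hdvd : ∀ i j, ∃ m : ℤ_[p], (ρ g - 1) i j = (p : ℤ_[p]) * m := by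
      intro i j
      have h1 : PadicInt.toZModPow (p := p) 1 ((ρ g - 1) i j) = 0 := by
        have h2 := congrFun (congrFun hg i) j
        have h3 : PadicInt.toZModPow (p := p) 1 (ρ g i j) = (1 : Matrix (Fin d) (Fin d) (ZMod (p ^ 1))) i j := h2
        rw [Matrix.sub_apply, map_sub, h3, Matrix.one_apply, Matrix.one_apply]
        split_ifs <;> simp
      rw [← RingHom.mem_ker, PadicInt.ker_toZModPow, Ideal.mem_span_singleton, pow_one] at h1
      exact h1
    choose M hM using hdvd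
    have h1 : ρ g = 1 + (p : Mat p d) * (Matrix.of M) := by
      ext i j
      have e : ((p : ℕ) : Mat p d) = (p : ℤ_[p]) • (1 : Mat p d) := by
        rw [Matrix.smul_one_eq_diagonal]
        rfl
      rw [e, smul_mul_assoc, one_mul, Matrix.add_apply, Matrix.smul_apply, Matrix.of_apply,
        smul_eq_mul, ← hM, Matrix.sub_apply]
      ring
    have h2 : Matrix.of M = 0 := by
      apply core hp
      rw [← h1, ← map_pow, hgp, map_one]
    apply hρ
    rw [h1, h2, mul_zero, add_zero, map_one]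
  have key2 : ∀ (k : ℕ) (g : G), φ g = 1 → g ^ p ^ k = 1 → g = 1 := by
    intro k
    induction k with
    | zero => intro g _ h; simpa using h
    | succ k ih =>
      intro g hg h
      apply ih g hg
      apply key
      · rw [map_pow, hg, one_pow]
      · rw [← pow_mul, ← pow_succ]; exact h
  have hinj : Function.Injective φ := by
    rw [injective_iff_map_eq_one]
    intro g hg
    obtain ⟨k, hk⟩ := hG g
    exact key2 k g hg hk
  have hpp : 1 < p := (Fact.out : p.Prime).one_lt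
  have : NeZero (p ^ 1) := ⟨by positivity⟩
  have hcard := Nat.card_le_card_of_injective φ hinj
  have hc2 : Nat.card (Matrix (Fin d) (Fin d) (ZMod (p ^ 1))) = p ^ (d ^ 2) := by
    unfold Matrix
    simp [sq, pow_mul]
  rw [hc2, ha] at hcard
  exact (Nat.pow_le_pow_iff_right hpp).1 hcard

end Pool.Agent.W692.SG.TF
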